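import Pool.Agent.Lib.OS35.Main

set_option autoImplicit false
open scoped Classical

namespace Pool.Agent.Results.MP_6d5d56_co.OneShort

theorem result :
    ∀ (V : Type) [Fintype V] (G : Digraph V) (k : ℕ), 0 < k →
    ∀ Ps : Finset (List V),
      ∑ P ∈ Ps.filter (fun P => P.length < k), P.length ≤ 1 →
      (∀ P ∈ Ps, P ≠ [] ∧ P.Nodup ∧
        ∀ (i : ℕ) (u v : V), P[i]? = some u → P[i+1]? = some v → G.Adj u v) →
      (∀ v : V, ∃! P, P ∈ Ps ∧ v ∈ P) →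
      (∀ Qs : Finset (List V),
        (∀ Q ∈ Qs, Q ≠ [] ∧ Q.Nodup ∧
          ∀ (i : ℕ) (u v : V), Q[i]? = some u → Q[i+1]? = some v → G.Adj u v) →
        (∀ v : V, ∃! Q, Q ∈ Qs ∧ v ∈ Q) →
        ∑ P ∈ Ps, min P.length k ≤ ∑ Q ∈ Qs, min Q.length k) →
      ∃ C : Fin k → Finset V,
        (∀ i j, i ≠ j → Disjoint (C i) (C j)) ∧
        (∀ i, ∀ u ∈ C i, ∀ v ∈ C i, u ≠ v → ¬ G.Adj u v) ∧
        ∀ P ∈ Ps, (Finset.univ.filter (fun i : Fin k => ∃ v ∈ P, v ∈ C i)).card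
          = min P.length k :=
  fun _ _ G k hk Ps hv h1 h2 h3 => Pool.Agent.Lib.OS35.oneShort G k hk Ps hv h1 h2 h3

end Pool.Agent.Results.MP_6d5d56_co.OneShort
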